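import Pool.Agent.Helper42.RZ2.Basic
import Pool.Agent.Helper42.RZ2.St.R4a
import Pool.Agent.Helper42.RZ2.St.R4b

/-! # RZ2-R4c: the limit of the regularised lattice sums exists; uniform bounds for the square lattice -/

set_option autoImplicit false

open MeasureTheory Set Metric Filter Topology
open scoped ENNReal

namespace Pool.Agent.Helper51.RZ2

open Pool.Agent.Helper42.RZ Pool.Agent.Helper42.RZ2

/-- the cell difference -/
noncomputable def Dk (s w : ℝ) (a b x : ℂ) (k : ℤ × ℤ) : ℝ :=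
  ph s w ‖x + lv a b k‖ - ∫ u in Sq, ph s w ‖x + lv a b k + (u.1 * a + u.2 * b)‖

theorem ph_le_K {s w r : ℝ} (hr : 0 ≤ r) (hw : 0 ≤ w) : ph s w r ≤ K s r := by
  unfold ph
  have h1 : Real.exp (-w * r) ≤ 1 := by
    rw [Real.exp_le_one_iff]
    nlinarith [mul_nonneg hw hr]
  have h2 : 0 ≤ K s r := Real.rpow_nonneg hr _
  calc K s r * Real.exp (-w * r) ≤ K s r * 1 := mul_le_mul_of_nonneg_left h1 h2
    _ = K s r := mul_one _

theorem measurable_cell (s w : ℝ) (a b y : ℂ) :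
    Measurable fun u : ℝ × ℝ => ph s w ‖y + (u.1 * a + u.2 * b)‖ := by
  have hc : Continuous fun u : ℝ × ℝ => ‖y + ((u.1 : ℂ) * a + (u.2 : ℂ) * b)‖ := by fun_prop
  exact (measurable_ph s w).comp hc.measurable

theorem ph_tendsto (s r : ℝ) : Tendsto (fun w => ph s w r) (𝓝[>] 0) (𝓝 (K s r)) := by
  have hc : Continuous fun w : ℝ => ph s w r := by
    unfold ph
    fun_prop
  have h1 := (hc.tendsto 0).mono_left (nhdsWithin_le_nhds (s := Ioi (0 : ℝ)))
  have h2 : ph s 0 r = K s r := by simp [ph]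
  rwa [h2] at h1

theorem cell_integrable {s : ℝ} (h0 : 0 < s) (h2 : s < 2) {a b : ℂ} (h : dt a b ≠ 0) {w : ℝ}
    (hw : 0 ≤ w) (y : ℂ) :
    IntegrableOn (fun u : ℝ × ℝ => ph s w ‖y + (u.1 * a + u.2 * b)‖) Sq := by
  obtain ⟨C, -, hC⟩ := cell_bound h0 h2 h
  refine (hC y).1.mono' (measurable_cell s w a b y).aestronglyMeasurable
    (Eventually.of_forall fun u => ?_)
  rw [Real.norm_of_nonneg (ph_nonneg (norm_nonneg _))]
  exact ph_le_K (norm_nonneg _) hw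

theorem cell_tendsto {s : ℝ} (h0 : 0 < s) (h2 : s < 2) {a b : ℂ} (h : dt a b ≠ 0) (y : ℂ) :
    Tendsto (fun w => ∫ u in Sq, ph s w ‖y + (u.1 * a + u.2 * b)‖) (𝓝[>] 0)
      (𝓝 (∫ u in Sq, K s ‖y + (u.1 * a + u.2 * b)‖)) := by
  obtain ⟨C, -, hC⟩ := cell_bound h0 h2 h
  refine tendsto_integral_filter_of_dominated_convergence
    (fun u : ℝ × ℝ => K s ‖y + (u.1 * a + u.2 * b)‖) ?_ ?_ (hC y).1 ?_
  · exact Eventually.of_forall fun w => (measurable_cell s w a b y).aestronglyMeasurable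
  · filter_upwards [self_mem_nhdsWithin] with w hw
    refine Eventually.of_forall fun u => ?_
    rw [Real.norm_of_nonneg (ph_nonneg (norm_nonneg _))]
    exact ph_le_K (norm_nonneg _) (le_of_lt hw)
  · exact Eventually.of_forall fun u => ph_tendsto s _

theorem cell_le {s : ℝ} (h0 : 0 < s) (h2 : s < 2) {a b : ℂ} (h : dt a b ≠ 0) :
    ∃ C : ℝ, 0 < C ∧ ∀ (w : ℝ), 0 ≤ w → ∀ y : ℂ,
      0 ≤ ∫ u in Sq, ph s w ‖y + (u.1 * a + u.2 * b)‖ ∧
      ∫ u in Sq, ph s w ‖y + (u.1 * a + u.2 * b)‖ ≤ C := by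
  obtain ⟨C, hC0, hC⟩ := cell_bound h0 h2 h
  refine ⟨C, hC0, fun w hw y => ⟨integral_nonneg fun u => ph_nonneg (norm_nonneg _), ?_⟩⟩
  refine (integral_mono (cell_integrable h0 h2 h hw y) (hC y).1 fun u => ?_).trans (hC y).2
  exact ph_le_K (norm_nonneg _) hw

theorem RS_tendsto {s : ℝ} (h0 : 0 < s) (h2 : s < 2) {a b : ℂ} (h : dt a b ≠ 0) (x : ℂ) :
    ∃ G : ℝ, Tendsto (fun w => RS s w a b x) (𝓝[>] 0) (𝓝 G) := by
  classical
  obtain ⟨g, F, hg, hF⟩ := diff_bound h0 h2 h ‖x‖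
  obtain ⟨C, hC0, hC⟩ := cell_le h0 h2 h
  let bound : ℤ × ℤ → ℝ := fun k => if k ∈ F then K s ‖x + lv a b k‖ + C else g k
  have hb : Summable bound := by
    refine (summable_congr_cofinite ?_).2 hg
    have hfin : {k : ℤ × ℤ | ¬ bound k = g k} ⊆ (F : Set (ℤ × ℤ)) := by
      intro k hk
      by_contra hkF
      refine hk ?_
      simp only [bound]
      rw [if_neg]
      exact hkF
    exact (F.finite_toSet).subset hfin
  have hlim := tendsto_tsum_of_dominated_convergence (𝓕 := 𝓝[>] (0 : ℝ))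
    (f := fun w k => Dk s w a b x k)
    (g := fun k => K s ‖x + lv a b k‖ - ∫ u in Sq, K s ‖x + lv a b k + (u.1 * a + u.2 * b)‖)
    hb (fun k => (ph_tendsto s _).sub (cell_tendsto h0 h2 h _)) ?_
  · refine ⟨_, hlim.congr' ?_⟩
    filter_upwards [self_mem_nhdsWithin] with w hw
    exact (RS_hasSum h0 h2 hw h x).tsum_eq
  · have h1 : ∀ᶠ w : ℝ in 𝓝[>] 0, w < 1 :=
      (nhdsWithin_le_nhds (s := Ioi (0 : ℝ))) (Iio_mem_nhds one_pos)
    filter_upwards [self_mem_nhdsWithin, h1] with w hw hw1 k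
    have hw0 : 0 ≤ w := le_of_lt hw
    rw [Real.norm_eq_abs]
    simp only [bound]
    split_ifs with hk
    · have h3 := ph_le_K (s := s) (norm_nonneg (x + lv a b k)) hw0
      have h4 : 0 ≤ ph s w ‖x + lv a b k‖ := ph_nonneg (norm_nonneg _)
      have h5 := hC w hw0 (x + lv a b k)
      rw [Dk, abs_le]
      constructor
      · linarith [h5.1, h5.2]
      · linarith [h5.1, h5.2]
    · exact hF x le_rfl w hw0 hw1.le k hk

/-- truncation to a finite set -/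
theorem RS_trunc {s : ℝ} (h0 : 0 < s) (h2 : s < 2) {a b : ℂ} (h : dt a b ≠ 0) (R : ℝ)
    (S : Finset (ℤ × ℤ)) : ∃ (C : ℝ) (F : Finset (ℤ × ℤ)), 0 < C ∧ S ⊆ F ∧ ∀ w : ℝ, 0 < w → w ≤ 1 →
      ∀ x : ℂ, ‖x‖ ≤ R → |RS s w a b x - ∑ k ∈ F, ph s w ‖x + lv a b k‖| ≤ C := by
  classical
  obtain ⟨g, F, hg, hF⟩ := diff_bound h0 h2 h R
  obtain ⟨C, hC0, hC⟩ := cell_le h0 h2 h
  refine ⟨∑' k, |g k| + (F ∪ S).card * C + 1, F ∪ S, ?_, Finset.subset_union_right, ?_⟩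
  · have : 0 ≤ ∑' k, |g k| := tsum_nonneg fun k => abs_nonneg _
    have h3 : 0 ≤ ((F ∪ S).card : ℝ) * C := by positivity
    linarith
  · intro w hw hw1 x hx
    have hs := RS_hasSum h0 h2 hw h x
    have hsum : Summable fun k => Dk s w a b x k := hs.summable
    have h3 : RS s w a b x = ∑ k ∈ F ∪ S, Dk s w a b x k +
        ∑' k : { k // k ∉ F ∪ S }, Dk s w a b x k := by
      rw [← hs.tsum_eq]
      exact (hsum.sum_add_tsum_subtype_compl (F ∪ S)).symm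
    have hg' : Summable fun k => |g k| := hg.abs
    have h4 : |∑' k : { k // k ∉ F ∪ S }, Dk s w a b x k| ≤ ∑' k, |g k| := by
      have h5 : ∀ k : { k // k ∉ F ∪ S }, ‖Dk s w a b x k‖ ≤ |g k| := by
        intro k
        have hk : (k : ℤ × ℤ) ∉ F := fun hk => k.2 (Finset.mem_union_left _ hk)
        exact (hF x hx w hw.le hw1 k hk).trans (le_abs_self _)
      have hgs : Summable fun k : { k // k ∉ F ∪ S } => |g k| :=
        hg'.subtype _
      have h6 := tsum_of_norm_bounded hgs.hasSum h5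
      rw [Real.norm_eq_abs] at h6
      refine h6.trans ?_
      exact hg'.tsum_subtype_le (fun k => |g k|) {k | k ∉ F ∪ S} (fun k => abs_nonneg _)
    have h7 : |∑ k ∈ F ∪ S, Dk s w a b x k - ∑ k ∈ F ∪ S, ph s w ‖x + lv a b k‖| ≤
        (F ∪ S).card * C := by
      rw [← Finset.sum_sub_distrib]
      refine (Finset.abs_sum_le_sum_abs _ _).trans ?_
      rw [← nsmul_eq_mul]
      refine Finset.sum_le_card_nsmul _ _ _ fun k _ => ?_
      have h8 := hC w hw.le (x + lv a b k)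
      rw [Dk, sub_sub_cancel_left, abs_neg, abs_of_nonneg h8.1]
      exact h8.2
    rw [h3]
    have h9 : ∑ k ∈ F ∪ S, Dk s w a b x k + ∑' k : { k // k ∉ F ∪ S }, Dk s w a b x k -
        ∑ k ∈ F ∪ S, ph s w ‖x + lv a b k‖ =
        (∑ k ∈ F ∪ S, Dk s w a b x k - ∑ k ∈ F ∪ S, ph s w ‖x + lv a b k‖) +
        ∑' k : { k // k ∉ F ∪ S }, Dk s w a b x k := by ring
    rw [h9]
    refine (abs_add_le _ _).trans ?_
    linarith

theorem dt_one_I : dt 1 Complex.I ≠ 0 := by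
  simp [dt]

theorem lv_re (k : ℤ × ℤ) : (lv 1 Complex.I k).re = k.1 := by simp [lv]

theorem lv_im (k : ℤ × ℤ) : (lv 1 Complex.I k).im = k.2 := by simp [lv]

theorem K_le_one {s r : ℝ} (h0 : 0 < s) (hr : 1 ≤ r) : K s r ≤ 1 :=
  Real.rpow_le_one_of_one_le_of_nonpos hr (by linarith)

theorem K_le_four {s r : ℝ} (h0 : 0 < s) (h2 : s < 2) (hr : 1 / 2 ≤ r) : K s r ≤ 4 := by
  have h1 : K s r ≤ (1 / 2 : ℝ) ^ (-s) :=
    Real.rpow_le_rpow_of_nonpos (by norm_num) hr (by linarith)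
  have h3 : (1 / 2 : ℝ) ^ (-s) ≤ (1 / 2 : ℝ) ^ (-2 : ℝ) :=
    Real.rpow_le_rpow_of_exponent_ge (by norm_num) (by norm_num) (by linarith)
  have h4 : (1 / 2 : ℝ) ^ (-2 : ℝ) = 4 := by
    rw [Real.rpow_neg (by norm_num)]
    norm_num
  linarith

theorem norm_le_two {x : ℂ} (h1 : |x.re| ≤ 1) (h2 : |x.im| ≤ 1) : ‖x‖ ≤ 2 := by
  have := Complex.norm_le_abs_re_add_abs_im x
  linarith

theorem far_one {x : ℂ} (h1 : |x.re| ≤ 1) (h2 : |x.im| ≤ 1) {k : ℤ × ℤ}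
    (hk : k ∉ Finset.Icc (-1 : ℤ) 1 ×ˢ Finset.Icc (-1 : ℤ) 1) : 1 ≤ ‖x + lv 1 Complex.I k‖ := by
  have hre := Complex.abs_re_le_norm (x + lv 1 Complex.I k)
  have him := Complex.abs_im_le_norm (x + lv 1 Complex.I k)
  rw [Complex.add_re, lv_re] at hre
  rw [Complex.add_im, lv_im] at him
  rw [Finset.mem_product, Finset.mem_Icc, Finset.mem_Icc] at hk
  rw [abs_le] at h1 h2
  by_cases hk1 : -1 ≤ k.1 ∧ k.1 ≤ 1
  · have hk2 : ¬ (-1 ≤ k.2 ∧ k.2 ≤ 1) := fun h => hk ⟨hk1, h⟩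
    rw [not_and_or, not_le, not_le] at hk2
    rcases hk2 with hk2 | hk2
    · have h3 : (k.2 : ℝ) ≤ -2 := by exact_mod_cast (by omega : k.2 ≤ -2)
      have h4 := neg_abs_le (x.im + (k.2 : ℝ))
      linarith
    · have h3 : (2 : ℝ) ≤ k.2 := by exact_mod_cast (by omega : 2 ≤ k.2)
      have h4 := le_abs_self (x.im + (k.2 : ℝ))
      linarith
  · rw [not_and_or, not_le, not_le] at hk1
    rcases hk1 with hk1 | hk1
    · have h3 : (k.1 : ℝ) ≤ -2 := by exact_mod_cast (by omega : k.1 ≤ -2)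
      have h4 := neg_abs_le (x.re + (k.1 : ℝ))
      linarith
    · have h3 : (2 : ℝ) ≤ k.1 := by exact_mod_cast (by omega : 2 ≤ k.1)
      have h4 := le_abs_self (x.re + (k.1 : ℝ))
      linarith

theorem far_half {x : ℂ} (h1 : |x.re| ≤ 1 / 2) (h2 : |x.im| ≤ 1 / 2) {k : ℤ × ℤ}
    (hk : k ≠ 0) : 1 / 2 ≤ ‖x + lv 1 Complex.I k‖ := by
  have hre := Complex.abs_re_le_norm (x + lv 1 Complex.I k)
  have him := Complex.abs_im_le_norm (x + lv 1 Complex.I k)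
  rw [Complex.add_re, lv_re] at hre
  rw [Complex.add_im, lv_im] at him
  rw [abs_le] at h1 h2
  by_cases hk1 : k.1 = 0
  · have hk2 : k.2 ≠ 0 := fun h => hk (Prod.ext hk1 h)
    rcases lt_or_gt_of_ne hk2 with hk2 | hk2
    · have h3 : (k.2 : ℝ) ≤ -1 := by exact_mod_cast (by omega : k.2 ≤ -1)
      have h4 := neg_abs_le (x.im + (k.2 : ℝ))
      linarith
    · have h3 : (1 : ℝ) ≤ k.2 := by exact_mod_cast (by omega : 1 ≤ k.2)
      have h4 := le_abs_self (x.im + (k.2 : ℝ))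
      linarith
  · rcases lt_or_gt_of_ne hk1 with hk1 | hk1
    · have h3 : (k.1 : ℝ) ≤ -1 := by exact_mod_cast (by omega : k.1 ≤ -1)
      have h4 := neg_abs_le (x.re + (k.1 : ℝ))
      linarith
    · have h3 : (1 : ℝ) ≤ k.1 := by exact_mod_cast (by omega : 1 ≤ k.1)
      have h4 := le_abs_self (x.re + (k.1 : ℝ))
      linarith

theorem RS_bounds {s : ℝ} (h0 : 0 < s) (h2 : s < 2) : ∃ C : ℝ, 0 < C ∧
    ∀ w : ℝ, 0 < w → w ≤ 1 →
    (∀ x : ℂ, |x.re| ≤ 1 → |x.im| ≤ 1 → -C ≤ RS s w 1 Complex.I x ∧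
      RS s w 1 Complex.I x ≤ C +
        ∑ k ∈ Finset.Icc (-1 : ℤ) 1 ×ˢ Finset.Icc (-1 : ℤ) 1, K s ‖x + lv 1 Complex.I k‖) ∧
    (∀ x : ℂ, |x.re| ≤ 1 / 2 → |x.im| ≤ 1 / 2 → |RS s w 1 Complex.I x - ph s w ‖x‖| ≤ C) := by
  classical
  set S : Finset (ℤ × ℤ) := Finset.Icc (-1 : ℤ) 1 ×ˢ Finset.Icc (-1 : ℤ) 1 with hS
  obtain ⟨C, F, hC0, hSF, hC⟩ := RS_trunc h0 h2 dt_one_I 2 S
  refine ⟨C + F.card * 4, by positivity, fun w hw hw1 => ⟨fun x hx1 hx2 => ?_, fun x hx1 hx2 => ?_⟩⟩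
  · have h3 := hC w hw hw1 x (norm_le_two hx1 hx2)
    rw [abs_le] at h3
    have h4 : 0 ≤ ∑ k ∈ F, ph s w ‖x + lv 1 Complex.I k‖ :=
      Finset.sum_nonneg fun k _ => ph_nonneg (norm_nonneg _)
    have h5 : ∑ k ∈ F, ph s w ‖x + lv 1 Complex.I k‖ ≤
        F.card * 4 + ∑ k ∈ S, K s ‖x + lv 1 Complex.I k‖ := by
      rw [← Finset.sum_sdiff hSF]
      refine add_le_add ?_ ?_
      · have h6 : ∑ k ∈ F \ S, ph s w ‖x + lv 1 Complex.I k‖ ≤ (F \ S).card • (4 : ℝ) := by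
          refine Finset.sum_le_card_nsmul _ _ _ fun k hk => ?_
          have hkS : k ∉ S := (Finset.mem_sdiff.1 hk).2
          have h7 := K_le_one h0 (far_one hx1 hx2 hkS)
          have h8 := ph_le_K (s := s) (norm_nonneg (x + lv 1 Complex.I k)) hw.le
          linarith
        rw [nsmul_eq_mul] at h6
        have h7 : ((F \ S).card : ℝ) ≤ F.card := by
          exact_mod_cast Finset.card_le_card Finset.sdiff_subset
        nlinarith
      · exact Finset.sum_le_sum fun k _ => ph_le_K (norm_nonneg _) hw.le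
    have h6 : (0 : ℝ) ≤ F.card * 4 := by positivity
    constructor
    · linarith [h3.1]
    · linarith [h3.2]
  · have h3 := hC w hw hw1 x (norm_le_two (hx1.trans (by norm_num)) (hx2.trans (by norm_num)))
    have h0S : (0 : ℤ × ℤ) ∈ S := by
      rw [hS]
      decide
    have h0F : (0 : ℤ × ℤ) ∈ F := hSF h0S
    rw [← Finset.add_sum_erase _ _ h0F] at h3
    have h4 : lv 1 Complex.I 0 = 0 := by simp [lv]
    rw [h4, add_zero] at h3
    have h5 : 0 ≤ ∑ k ∈ F.erase 0, ph s w ‖x + lv 1 Complex.I k‖ :=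
      Finset.sum_nonneg fun k _ => ph_nonneg (norm_nonneg _)
    have h6 : ∑ k ∈ F.erase 0, ph s w ‖x + lv 1 Complex.I k‖ ≤ F.card * 4 := by
      have h6 : ∑ k ∈ F.erase 0, ph s w ‖x + lv 1 Complex.I k‖ ≤ (F.erase 0).card • (4 : ℝ) := by
        refine Finset.sum_le_card_nsmul _ _ _ fun k hk => ?_
        have hk0 : k ≠ 0 := (Finset.mem_erase.1 hk).1
        have h7 := K_le_four h0 h2 (far_half hx1 hx2 hk0)
        have h8 := ph_le_K (s := s) (norm_nonneg (x + lv 1 Complex.I k)) hw.le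
        linarith
      rw [nsmul_eq_mul] at h6
      have h7 : ((F.erase 0).card : ℝ) ≤ F.card := by
        exact_mod_cast Finset.card_le_card (Finset.erase_subset _ _)
      nlinarith
    rw [abs_le] at h3 ⊢
    constructor
    · linarith [h3.1]
    · linarith [h3.2]

end Pool.Agent.Helper51.RZ2
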